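import Pool.Agent.W611.RO.Stms

/-!
# UNI: weighted permutation operators from a Hilbert basis
-/

set_option autoImplicit false
open scoped ComplexConjugate InnerProductSpace Topology ENNReal
open Filter

namespace Pool.Agent.W515.RO

theorem bdd (G H : Type) [NormedAddCommGroup H] [InnerProductSpace ℂ H]
    [CompleteSpace H] (b : HilbertBasis G ℂ H) (σ : Equiv.Perm G) (m : G → ℂ) (R : ℝ)
    (hR0 : 0 ≤ R) (hR : ∀ k, ‖m k‖ ≤ R) :
    ∃ X : H →L[ℂ] H, ‖X‖ ≤ R ∧ ∀ k, X (b k) = m k • b (σ k) := by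
  classical
  have h2 : 0 < (2 : ℝ≥0∞).toReal := by norm_num
  have hsum : ∀ f : lp (fun _ : G => ℂ) 2, Summable (fun j => ‖f j‖ ^ (2 : ℝ≥0∞).toReal) :=
    fun f => (lp.memℓp f).summable h2
  have hsum' : ∀ f : lp (fun _ : G => ℂ) 2,
      Summable (fun j => R ^ (2 : ℝ≥0∞).toReal * ‖f (σ.symm j)‖ ^ (2 : ℝ≥0∞).toReal) :=
    fun f => ((σ.symm.summable_iff (f := fun j => ‖f j‖ ^ (2 : ℝ≥0∞).toReal)).mpr
      (hsum f)).mul_left _
  have hle : ∀ (f : lp (fun _ : G => ℂ) 2) (j : G),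
      ‖m (σ.symm j) * f (σ.symm j)‖ ^ (2 : ℝ≥0∞).toReal ≤
        R ^ (2 : ℝ≥0∞).toReal * ‖f (σ.symm j)‖ ^ (2 : ℝ≥0∞).toReal := by
    intro f j
    rw [norm_mul, Real.mul_rpow (norm_nonneg _) (norm_nonneg _)]
    apply mul_le_mul_of_nonneg_right _ (by positivity)
    exact Real.rpow_le_rpow (norm_nonneg _) (hR _) h2.le
  have hsm : ∀ f : lp (fun _ : G => ℂ) 2,
      Summable (fun j => ‖m (σ.symm j) * f (σ.symm j)‖ ^ (2 : ℝ≥0∞).toReal) := fun f =>
    Summable.of_nonneg_of_le (fun _ => by positivity) (hle f) (hsum' f)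
  have hmem : ∀ f : lp (fun _ : G => ℂ) 2,
      Memℓp (fun j => m (σ.symm j) * f (σ.symm j)) 2 := fun f => memℓp_gen (hsm f)
  let T₀ : lp (fun _ : G => ℂ) 2 →ₗ[ℂ] lp (fun _ : G => ℂ) 2 :=
    { toFun := fun f => ⟨fun j => m (σ.symm j) * f (σ.symm j), hmem f⟩
      map_add' := by
        intro f g
        ext j
        show m (σ.symm j) * (f (σ.symm j) + g (σ.symm j)) = _
        rw [mul_add]; rfl
      map_smul' := by
        intro c f
        ext j
        show m (σ.symm j) * (c * f (σ.symm j)) = c * (m (σ.symm j) * f (σ.symm j))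
        ring }
  have hT₀ : ∀ f j, T₀ f j = m (σ.symm j) * f (σ.symm j) := fun f j => rfl
  have hbd : ∀ f, ‖T₀ f‖ ≤ R * ‖f‖ := by
    intro f
    apply lp.norm_le_of_tsum_le h2 (by positivity)
    rw [Real.mul_rpow hR0 (norm_nonneg _), lp.norm_rpow_eq_tsum h2 f]
    calc ∑' j, ‖T₀ f j‖ ^ (2 : ℝ≥0∞).toReal
        ≤ ∑' j, R ^ (2 : ℝ≥0∞).toReal * ‖f (σ.symm j)‖ ^ (2 : ℝ≥0∞).toReal :=
          (hsm f).tsum_le_tsum (hle f) (hsum' f)
      _ = R ^ (2 : ℝ≥0∞).toReal * ∑' j, ‖f (σ.symm j)‖ ^ (2 : ℝ≥0∞).toReal := tsum_mul_left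
      _ = R ^ (2 : ℝ≥0∞).toReal * ∑' j, ‖f j‖ ^ (2 : ℝ≥0∞).toReal := by
          rw [σ.symm.tsum_eq (fun j => ‖f j‖ ^ (2 : ℝ≥0∞).toReal)]
  let T : lp (fun _ : G => ℂ) 2 →L[ℂ] lp (fun _ : G => ℂ) 2 := T₀.mkContinuous R hbd
  have hT : ∀ f, T f = T₀ f := fun f => rfl
  let X : H →L[ℂ] H := (b.repr.symm.toContinuousLinearEquiv : lp (fun _ : G => ℂ) 2 →L[ℂ] H) ∘L T ∘L
    (b.repr.toContinuousLinearEquiv : H →L[ℂ] lp (fun _ : G => ℂ) 2)
  have hX : ∀ x, X x = b.repr.symm (T₀ (b.repr x)) := fun x => rfl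
  refine ⟨X, ?_, ?_⟩
  · apply ContinuousLinearMap.opNorm_le_bound _ hR0
    intro x
    rw [hX, LinearIsometryEquiv.norm_map]
    exact (hbd _).trans_eq (by rw [LinearIsometryEquiv.norm_map])
  · intro k
    rw [hX, b.repr_self]
    have h3 : T₀ (lp.single 2 k (1 : ℂ)) = m k • lp.single 2 (σ k) (1 : ℂ) := by
      ext j
      rw [hT₀]
      show m (σ.symm j) * (lp.single 2 k (1 : ℂ) : lp (fun _ : G => ℂ) 2) (σ.symm j) =
        m k * (lp.single 2 (σ k) (1 : ℂ) : lp (fun _ : G => ℂ) 2) j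
      by_cases hj : j = σ k
      · subst hj
        rw [Equiv.symm_apply_apply, lp.single_apply_self, lp.single_apply_self]
      · have hj' : σ.symm j ≠ k := by
          intro h
          apply hj
          rw [← h, Equiv.apply_symm_apply]
        rw [lp.single_apply_ne 2 k _ hj', lp.single_apply_ne 2 (σ k) _ hj, mul_zero, mul_zero]
    rw [h3, map_smul, b.repr_symm_single]

theorem t_UNI : Pool.Agent.W611.RO.P_UNI := by
  intro G H _ _ _ b σ m
  refine ⟨fun hm => ?_, fun R hR0 hR => bdd G H b σ m R hR0 hR⟩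
  obtain ⟨X, hXn, hX⟩ := bdd G H b σ m 1 zero_le_one (fun k => (hm k).le)
  obtain ⟨Y, hYn, hY⟩ := bdd G H b σ.symm (fun k => conj (m (σ.symm k))) 1 zero_le_one
    (fun k => by rw [RCLike.norm_conj, hm])
  have hdense : Dense (Submodule.span ℂ (Set.range b) : Set H) := by
    have := b.dense_span
    rw [← Submodule.dense_iff_topologicalClosure_eq_top] at this
    exact this
  have hmm : ∀ k, conj (m k) * m k = 1 := by
    intro k
    rw [Complex.conj_mul', hm]
    simp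
  have hXY : X ∘L Y = 1 := by
    apply ContinuousLinearMap.ext_on hdense
    rintro _ ⟨k, rfl⟩
    show X (Y (b k)) = b k
    rw [hY, map_smul, hX, smul_smul, hmm, Equiv.apply_symm_apply, one_smul]
  have hYX : Y ∘L X = 1 := by
    apply ContinuousLinearMap.ext_on hdense
    rintro _ ⟨k, rfl⟩
    show Y (X (b k)) = b k
    rw [hX, map_smul, hY, smul_smul, Equiv.symm_apply_apply, mul_comm, hmm, one_smul]
  have hiso : ∀ x, ‖X x‖ = ‖x‖ := by
    intro x
    apply le_antisymm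
    · calc ‖X x‖ ≤ ‖X‖ * ‖x‖ := X.le_opNorm x
        _ ≤ 1 * ‖x‖ := by gcongr
        _ = ‖x‖ := one_mul _
    · calc ‖x‖ = ‖Y (X x)‖ := by
            have := congrArg (fun f : H →L[ℂ] H => f x) hYX
            simp only [ContinuousLinearMap.comp_apply, one_apply_eq_self] at this
            rw [this]
        _ ≤ ‖Y‖ * ‖X x‖ := Y.le_opNorm _
        _ ≤ 1 * ‖X x‖ := by gcongr
        _ = ‖X x‖ := one_mul _
  have h1 : star X * X = 1 := by
    have := (ContinuousLinearMap.norm_map_iff_adjoint_comp_self X).mp hiso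
    exact this
  have h2 : star X = Y := by
    calc star X = star X * (X * Y) := by
          rw [show X * Y = 1 from hXY, mul_one]
      _ = (star X * X) * Y := by rw [mul_assoc]
      _ = Y := by rw [h1, one_mul]
  have h3 : X * star X = 1 := by
    rw [h2]
    exact hXY
  exact ⟨⟨X, Unitary.mem_iff.mpr ⟨h1, h3⟩⟩, hX⟩

end Pool.Agent.W515.RO
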